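import Pool.Agent.N798.S2.Stm

set_option autoImplicit false

/-!
Project S2 (helper798), step PB (helper195): sums over primes, combination of the two cases.
-/

namespace Pool.Agent.N195.S2.PB

open Finset Filter Topology
open Pool.Agent.H376R2.MR (er)
open Pool.Agent.N798.S2

theorem norm_er (τ x : ℝ) : ‖er τ x‖ = 1 := by
  unfold er
  exact Complex.norm_exp_ofReal_mul_I _

theorem er_one_add (τ x y : ℝ) : er 1 (τ * x + y) = er τ x * er 1 y := by
  unfold er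
  rw [← Complex.exp_add]
  congr 1
  push_cast
  ring

theorem norm_phE {J : ℕ} (τ : ℝ) (g : Fin J → ℝ) (n : ℕ) : ‖phE τ g n‖ = 1 := norm_er _ _

/-- the slowly varying part of the phase -/
noncomputable def psi {J : ℕ} (g : Fin J → ℝ) (n : ℕ) : ℝ := ∑ i, g i / (n : ℝ) ^ ((i : ℕ) + 1)

theorem phE_eq {J : ℕ} (τ : ℝ) (g : Fin J → ℝ) (n : ℕ) :
    phE τ g n = er τ (Real.log n) * er 1 (psi g n) := er_one_add _ _ _

theorem inv_pow_sub (x : ℝ) (hx : 0 < x) (k : ℕ) :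
    |1 / (x + 1) ^ k - 1 / x ^ k| ≤ k / x ^ (k + 1) := by
  have h1 : (1 : ℝ) + k * (-(1 / (x + 1))) ≤ (1 + (-(1 / (x + 1)))) ^ k := by
    apply one_add_mul_le_pow
    have : 1 / (x + 1) ≤ 1 := by
      rw [div_le_one (by linarith)]
      linarith
    linarith
  have h2 : (1 : ℝ) + (-(1 / (x + 1))) = x / (x + 1) := by
    field_simp
    ring
  rw [h2, div_pow] at h1
  have h3 : 1 / (x + 1) ^ k ≤ 1 / x ^ k := by
    apply one_div_le_one_div_of_le (by positivity)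
    apply pow_le_pow_left₀ hx.le
    linarith
  rw [abs_of_nonpos (by linarith)]
  have h4 : x ^ k / (x + 1) ^ k = x ^ k * (1 / (x + 1) ^ k) := by ring
  have h5 : -(1 / (x + 1) ^ k - 1 / x ^ k) = (1 / x ^ k) * (1 - x ^ k / (x + 1) ^ k) := by
    field_simp
    ring
  rw [h5]
  have h6 : 1 - x ^ k / (x + 1) ^ k ≤ k / x := by
    have h7 : (k : ℝ) * (1 / (x + 1)) ≤ k / x := by
      rw [mul_one_div]
      apply div_le_div_of_nonneg_left (by positivity) hx
      linarith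
    linarith
  calc (1 / x ^ k) * (1 - x ^ k / (x + 1) ^ k) ≤ (1 / x ^ k) * (k / x) :=
        mul_le_mul_of_nonneg_left h6 (by positivity)
    _ = k / x ^ (k + 1) := by
        rw [pow_succ]
        field_simp

theorem psi_var {J : ℕ} (g : Fin J → ℝ) (N n : ℕ) (hN : 1 ≤ N) (hn : N ≤ n) (Q : ℝ)
    (hQ : ∀ i, |g i| / (N : ℝ) ^ ((i : ℕ) + 1) ≤ Q) :
    |psi g (n + 1) - psi g n| ≤ (J : ℝ) ^ 2 * Q / N := by
  have hN0 : (0 : ℝ) < N := by exact_mod_cast hN
  have hn0 : (0 : ℝ) < n := by exact_mod_cast (lt_of_lt_of_le hN hn)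
  have hNn : (N : ℝ) ≤ n := by exact_mod_cast hn
  unfold psi
  rw [← Finset.sum_sub_distrib]
  refine (Finset.abs_sum_le_sum_abs _ _).trans ?_
  have h1 : ∀ i : Fin J, |g i / ((n + 1 : ℕ) : ℝ) ^ ((i : ℕ) + 1) - g i / (n : ℝ) ^ ((i : ℕ) + 1)| ≤
      J * Q / N := by
    intro i
    have hi : ((i : ℕ) : ℝ) + 1 ≤ J := by exact_mod_cast i.2
    have h2 : g i / ((n + 1 : ℕ) : ℝ) ^ ((i : ℕ) + 1) - g i / (n : ℝ) ^ ((i : ℕ) + 1) =
        g i * (1 / ((n : ℝ) + 1) ^ ((i : ℕ) + 1) - 1 / (n : ℝ) ^ ((i : ℕ) + 1)) := by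
      push_cast
      ring
    rw [h2, abs_mul]
    have h3 := inv_pow_sub n hn0 ((i : ℕ) + 1)
    have h4 : (((i : ℕ) + 1 : ℕ) : ℝ) / (n : ℝ) ^ ((i : ℕ) + 1 + 1) ≤ J / (N : ℝ) ^ ((i : ℕ) + 1 + 1) := by
      push_cast
      gcongr
    calc |g i| * |1 / ((n : ℝ) + 1) ^ ((i : ℕ) + 1) - 1 / (n : ℝ) ^ ((i : ℕ) + 1)|
        ≤ |g i| * (J / (N : ℝ) ^ ((i : ℕ) + 1 + 1)) :=
          mul_le_mul_of_nonneg_left (h3.trans h4) (abs_nonneg _)
      _ = (|g i| / (N : ℝ) ^ ((i : ℕ) + 1)) * (J / N) := by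
          rw [pow_succ (N : ℝ) ((i : ℕ) + 1)]
          field_simp
      _ ≤ Q * (J / N) := mul_le_mul_of_nonneg_right (hQ i) (by positivity)
      _ = J * Q / N := by ring
  refine (Finset.sum_le_sum fun i _ => h1 i).trans ?_
  rw [Finset.sum_const, Finset.card_univ, Fintype.card_fin, nsmul_eq_mul]
  apply le_of_eq
  ring

/-- a power of the logarithm is small -/
theorem log_pow_le (K N : ℕ) (hN : 1 ≤ N) :
    (Real.log N) ^ K ≤ (2 * ((K : ℝ) + 1)) ^ K * √N := by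
  have hN1 : (1 : ℝ) ≤ N := by exact_mod_cast hN
  have hN0 : (0 : ℝ) ≤ N := by linarith
  have hε : (0 : ℝ) < 1 / (2 * ((K : ℝ) + 1)) := by positivity
  set x : ℝ := (N : ℝ) ^ (1 / (2 * ((K : ℝ) + 1)) : ℝ) with hx
  have hx1 : 1 ≤ x := Real.one_le_rpow hN1 hε.le
  have h1 : Real.log N ≤ (2 * ((K : ℝ) + 1)) * x := by
    have h2 := Real.log_le_rpow_div hN0 hε
    rw [← hx] at h2
    calc Real.log N ≤ x / (1 / (2 * ((K : ℝ) + 1))) := h2
      _ = (2 * ((K : ℝ) + 1)) * x := by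
        rw [div_div_eq_mul_div, div_one, mul_comm]
  have h3 : x ^ (K + 1) = √N := by
    rw [hx, ← Real.rpow_natCast, ← Real.rpow_mul hN0, Real.sqrt_eq_rpow]
    congr 1
    push_cast
    field_simp
  calc (Real.log N) ^ K ≤ ((2 * ((K : ℝ) + 1)) * x) ^ K :=
        pow_le_pow_left₀ (Real.log_nonneg hN1) h1 K
    _ = (2 * ((K : ℝ) + 1)) ^ K * x ^ K := mul_pow _ _ _
    _ ≤ (2 * ((K : ℝ) + 1)) ^ K * x ^ (K + 1) := by
        apply mul_le_mul_of_nonneg_left _ (by positivity)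
        exact pow_le_pow_right₀ hx1 (Nat.le_succ K)
    _ = _ := by rw [h3]

theorem trivial_bound (E : ℕ → ℂ) (hE : ∀ n, ‖E n‖ ≤ 1) (N N' : ℕ) (h : N' ≤ 2 * N) :
    ‖∑ n ∈ Ioc N N', (if n.Prime then (1:ℂ) else 0) * E n‖ ≤ N := by
  refine (norm_sum_le _ _).trans ?_
  have h1 : ∀ n ∈ Ioc N N', ‖(if n.Prime then (1:ℂ) else 0) * E n‖ ≤ 1 := by
    intro n _
    rw [norm_mul]
    split
    · rw [norm_one, one_mul]
      exact hE n
    · rw [norm_zero, zero_mul]
      exact zero_le_one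
  refine (Finset.sum_le_sum h1).trans ?_
  rw [Finset.sum_const, Nat.card_Ioc, nsmul_eq_mul, mul_one]
  have : N' - N ≤ N := by omega
  exact_mod_cast this

theorem pb (h1 : S_LV) (h2 : S_LP) (h3 : S_VR)
    (h4 : Pool.Agent.N798.T.Wt (fun n => if n.Prime then 1 else 0) 1) : S_PB := by
  intro J A K
  obtain ⟨K1, C1, hC1, hLV⟩ := h1 J A K
  obtain ⟨C2, hC2, hLP⟩ := h2
  obtain ⟨K2, C3, hTW⟩ := h4.tw A (K + K1)
  set C4 : ℝ := (2 * ((K : ℝ) + 1)) ^ K with hC4
  have hC40 : 0 < C4 := by positivity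
  refine ⟨max K1 K2, 1 + C2 * (C1 + C4) + (1 + (J : ℝ) ^ 2) * |C3|, by positivity, ?_⟩
  intro N N' τ g hN hNN hN2 hτ hg hlarge
  have hNr : (2 : ℝ) ≤ N := by exact_mod_cast hN
  have hN0 : (0 : ℝ) < N := by linarith
  have hlog0 : 0 < Real.log N := Real.log_pos (by linarith)
  have t2 : 0 ≤ C2 * (C1 + C4) := by positivity
  have t3 : 0 ≤ (1 + (J : ℝ) ^ 2) * |C3| := by positivity
  -- the case `N = 2`
  rcases Nat.eq_or_lt_of_le hN with hN2' | hN3
  · have hlog1 : Real.log N ≤ 1 := by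
      rw [← hN2']
      have := Real.log_two_lt_d9
      norm_num at this ⊢
      linarith
    have hpow : (Real.log N) ^ K ≤ 1 := pow_le_one₀ hlog0.le hlog1
    have hpow0 : 0 < (Real.log N) ^ K := pow_pos hlog0 K
    refine (trivial_bound _ (fun n => (norm_phE τ g n).le) N N' hN2).trans ?_
    rw [le_div_iff₀ hpow0]
    have h5 : (N : ℝ) * (Real.log N) ^ K ≤ N := mul_le_of_le_one_right hN0.le hpow
    nlinarith [mul_nonneg t2 hN0.le, mul_nonneg t3 hN0.le]
  have hN3r : (3 : ℝ) ≤ N := by exact_mod_cast hN3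
  have hlog1 : 1 ≤ Real.log N := by
    rw [Real.le_log_iff_exp_le hN0]
    have := Real.exp_one_lt_d9
    linarith
  have hK0 : 0 < (Real.log N) ^ K := pow_pos hlog0 K
  have hX : 0 < (N : ℝ) / (Real.log N) ^ K := div_pos hN0 hK0
  by_cases hbig : ∃ i, (Real.log N) ^ K1 ≤ |g i| / (N : ℝ) ^ ((i : ℕ) + 1)
  · -- some `g i` is large
    have h5 : ∀ M, N ≤ M → M ≤ N' →
        ‖∑ n ∈ Ioc N M, ((ArithmeticFunction.vonMangoldt n : ℝ) : ℂ) * phE τ g n‖ ≤
          C1 * N / (Real.log N) ^ K := fun M hM hM' =>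
      hLV N M τ g hN hM (hM'.trans hN2) hτ hg hbig
    have h6 := hLP (phE τ g) N N' _ (fun n => (norm_phE τ g n).le) hN hNN hN2 h5
    refine h6.trans ?_
    have h7 : C1 * N / (Real.log N) ^ K / Real.log N ≤ C1 * (N / (Real.log N) ^ K) := by
      rw [mul_div_assoc]
      exact div_le_self (by positivity) hlog1
    have h8 : √(N : ℝ) ≤ C4 * (N / (Real.log N) ^ K) := by
      rw [← mul_div_assoc, le_div_iff₀ hK0]
      have h9 := log_pow_le K N (by omega)
      rw [← hC4] at h9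
      have h10 : √(N : ℝ) * √(N : ℝ) = N := Real.mul_self_sqrt hN0.le
      calc √(N : ℝ) * (Real.log N) ^ K ≤ √(N : ℝ) * (C4 * √(N : ℝ)) :=
            mul_le_mul_of_nonneg_left h9 (Real.sqrt_nonneg _)
        _ = C4 * (√(N : ℝ) * √(N : ℝ)) := by ring
        _ = C4 * N := by rw [h10]
    calc C2 * (C1 * N / (Real.log N) ^ K / Real.log N + √(N : ℝ))
        ≤ C2 * (C1 * (N / (Real.log N) ^ K) + C4 * (N / (Real.log N) ^ K)) :=
          mul_le_mul_of_nonneg_left (add_le_add h7 h8) hC2.le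
      _ = (C2 * (C1 + C4)) * (N / (Real.log N) ^ K) := by ring
      _ ≤ (1 + C2 * (C1 + C4) + (1 + (J : ℝ) ^ 2) * |C3|) * (N / (Real.log N) ^ K) := by
          apply mul_le_mul_of_nonneg_right _ hX.le
          linarith
      _ = _ := by ring
  · -- all `g i` are small, so `τ` is large
    push Not at hbig
    have hτ1 : (Real.log N) ^ (max K1 K2) ≤ |τ| := by
      rcases hlarge with h | ⟨i, hi⟩
      · exact h
      · exfalso
        have h5 := hbig i
        have h6 : (Real.log N) ^ K1 ≤ (Real.log N) ^ (max K1 K2) :=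
          pow_le_pow_right₀ hlog1 (le_max_left _ _)
        linarith
    have hτ2 : (Real.log N) ^ K2 ≤ |τ| :=
      (pow_le_pow_right₀ hlog1 (le_max_right _ _)).trans hτ1
    have hpos : 0 < (Real.log N) ^ (K + K1) := pow_pos hlog0 _
    have h5 : ∀ M, N ≤ M → M ≤ N' →
        ‖∑ n ∈ Ioc N M, (if n.Prime then (1:ℂ) else 0) * er τ (Real.log n)‖ ≤
          |C3| * N / (Real.log N) ^ (K + K1) := by
      intro M hM hM'
      refine (hTW N M τ hN hM (hM'.trans hN2) hτ2 hτ).trans ?_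
      gcongr
      exact le_abs_self _
    set V : ℝ := (J : ℝ) ^ 2 * (Real.log N) ^ K1 with hV
    have hV0 : 0 ≤ V := by positivity
    have h6 := h3 (fun n => (if n.Prime then (1:ℂ) else 0) * er τ (Real.log n)) (psi g) N N'
      (|C3| * N / (Real.log N) ^ (K + K1)) V (by omega) hNN hN2 hV0
      (fun n hn _ => psi_var g N n (by omega) hn _ fun i => (hbig i).le) h5
    have h7 : ∑ n ∈ Ioc N N', (if n.Prime then (1:ℂ) else 0) * phE τ g n =
        ∑ n ∈ Ioc N N', (if n.Prime then (1:ℂ) else 0) * er τ (Real.log n) * er 1 (psi g n) := by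
      refine Finset.sum_congr rfl fun n _ => ?_
      rw [phE_eq, mul_assoc]
    rw [h7]
    refine h6.trans ?_
    have h8 : 1 + V ≤ (1 + (J : ℝ) ^ 2) * (Real.log N) ^ K1 := by
      have h9 : 1 ≤ (Real.log N) ^ K1 := one_le_pow₀ hlog1
      rw [hV]
      nlinarith
    calc (1 + V) * (|C3| * N / (Real.log N) ^ (K + K1))
        ≤ ((1 + (J : ℝ) ^ 2) * (Real.log N) ^ K1) * (|C3| * N / (Real.log N) ^ (K + K1)) :=
          mul_le_mul_of_nonneg_right h8 (by positivity)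
      _ = ((1 + (J : ℝ) ^ 2) * |C3|) * (N / (Real.log N) ^ K) := by
          rw [pow_add]
          have h10 : (Real.log N) ^ K1 ≠ 0 := (pow_pos hlog0 K1).ne'
          field_simp
      _ ≤ (1 + C2 * (C1 + C4) + (1 + (J : ℝ) ^ 2) * |C3|) * (N / (Real.log N) ^ K) := by
          apply mul_le_mul_of_nonneg_right _ hX.le
          linarith
      _ = _ := by ring

end Pool.Agent.N195.S2.PB
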